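import Pool.Agent.UL3.Stmts

/-!
# Squad UL3, row LPD: the density of a lattice packing
-/

set_option autoImplicit false

namespace Pool.Agent.UL3.H88

open MeasureTheory Set Filter
open scoped ENNReal Topology

noncomputable def b0 : Module.Basis (Fin 3) ℝ E3 := (EuclideanSpace.basisFun (Fin 3) ℝ).toBasis

theorem vol_b0 : (volume : Measure E3) (ZSpan.fundamentalDomain b0) = 1 := by
  rw [measure_congr (ZSpan.fundamentalDomain_ae_parallelepiped b0 volume)]
  unfold b0
  rw [OrthonormalBasis.coe_toBasis]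
  exact (EuclideanSpace.basisFun (Fin 3) ℝ).volume_parallelepiped

theorem det_b0 (v : Fin 3 → E3) :
    b0.det (fun i => (2 : ℝ) • v i) = 8 * (Matrix.of fun i j => v i j).det := by
  have h1 : b0.toMatrix (fun i => (2 : ℝ) • v i)
      = Matrix.transpose ((2 : ℝ) • (Matrix.of fun i j => v i j)) := by
    ext i j
    rw [Module.Basis.toMatrix_apply]
    unfold b0
    simp
  rw [Module.Basis.det_apply, h1, Matrix.det_transpose, Matrix.det_smul, Fintype.card_fin]
  norm_num

theorem exists_basis (v : Fin 3 → E3) (h : 0 < dt v) :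
    ∃ b : Module.Basis (Fin 3) ℝ E3, (∀ i, b i = (2 : ℝ) • v i) ∧
      (volume : Measure E3) (ZSpan.fundamentalDomain b) = ENNReal.ofReal (8 * dt v) := by
  have h0 : (Matrix.of fun i j => v i j).det ≠ 0 := by
    intro h1
    unfold dt at h
    rw [h1, abs_zero] at h
    exact lt_irrefl _ h
  have h2 : IsUnit (b0.det (fun i => (2 : ℝ) • v i)) := by
    rw [det_b0]
    exact isUnit_iff_ne_zero.2 (mul_ne_zero (by norm_num) h0)
  obtain ⟨h3, h4⟩ := (Module.Basis.is_basis_iff_det b0).2 h2
  refine ⟨Module.Basis.mk h3 h4.ge, fun i => by rw [Module.Basis.mk_apply], ?_⟩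
  rw [ZSpan.measure_fundamentalDomain _ _ b0, vol_b0, mul_one, Module.Basis.coe_mk, det_b0,
    abs_mul, abs_of_pos (by norm_num : (0 : ℝ) < 8)]
  rfl

/-- the lattice vector with coordinates `n` -/
noncomputable def lam (v : Fin 3 → E3) (n : Fin 3 → ℤ) : E3 := (2 : ℝ) • ∑ i, (n i : ℝ) • v i

theorem lam_sub (v : Fin 3 → E3) (m n : Fin 3 → ℤ) : lam v (m - n) = lam v m - lam v n := by
  unfold lam
  rw [← smul_sub, ← Finset.sum_sub_distrib]
  congr 1
  refine Finset.sum_congr rfl fun i _ => ?_
  rw [Pi.sub_apply, Int.cast_sub, sub_smul]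

/-- the lattice vectors of norm less than `s` -/
abbrev Near (v : Fin 3 → E3) (s : ℝ) : Type := {n : Fin 3 → ℤ // ‖lam v n‖ < s}

/-- their number -/
noncomputable def num (v : Fin 3 → E3) (s : ℝ) : ℝ≥0∞ := ∑' _ : Near v s, 1

theorem meas_shift (S : Set E3) (a : E3) :
    (volume : Measure E3) ((fun x => x + a) '' S) = volume S := by
  rw [image_add_right, measure_preimage_add_right]

/-- covering by translates of the fundamental domain -/
theorem cover {v : Fin 3 → E3} {b : Module.Basis (Fin 3) ℝ E3} (hb : ∀ i, b i = (2 : ℝ) • v i)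
    {d : ℝ} (hd : ∀ x ∈ ZSpan.fundamentalDomain b, ‖x‖ ≤ d) (r : ℝ) :
    (volume : Measure E3) (Metric.ball 0 r) ≤
      num v (r + d) * volume (ZSpan.fundamentalDomain b) := by
  have h1 : Metric.ball (0 : E3) r ⊆
      ⋃ n : Near v (r + d), (fun x => x + lam v n.1) '' ZSpan.fundamentalDomain b := by
    intro x hx
    have hx' : ‖x‖ < r := by
      rw [← dist_zero_right]
      exact hx
    have h2 : ((ZSpan.floor b x : Submodule.span ℤ (Set.range b)) : E3)
        = lam v (fun i => ⌊b.repr x i⌋) := by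
      unfold ZSpan.floor lam
      rw [Finset.smul_sum]
      push_cast
      refine Finset.sum_congr rfl fun i _ => ?_
      rw [Module.Basis.restrictScalars_apply, hb i, smul_comm (2 : ℝ) ((⌊b.repr x i⌋ : ℤ) : ℝ),
        Int.cast_smul_eq_zsmul ℝ]
    have h3 : x = ZSpan.fract b x + lam v (fun i => ⌊b.repr x i⌋) := by
      rw [← h2, ZSpan.fract_apply, sub_add_cancel]
    have h4 : ‖ZSpan.fract b x‖ ≤ d := hd _ (ZSpan.fract_mem_fundamentalDomain b x)
    have h5 : ‖lam v (fun i => ⌊b.repr x i⌋)‖ < r + d := by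
      have h6 : lam v (fun i => ⌊b.repr x i⌋) = x - ZSpan.fract b x := by
        rw [eq_sub_iff_add_eq, add_comm]
        exact h3.symm
      rw [h6]
      exact lt_of_le_of_lt (norm_sub_le _ _) (by linarith)
    exact mem_iUnion.2 ⟨⟨_, h5⟩, ZSpan.fract b x, ZSpan.fract_mem_fundamentalDomain b x, h3.symm⟩
  refine (measure_mono h1).trans ((measure_iUnion_le _).trans (le_of_eq ?_))
  unfold num
  rw [← ENNReal.tsum_mul_right]
  refine tsum_congr fun n => ?_
  rw [meas_shift, one_mul]

/-- the translates of `K` -/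
theorem pack {K : Set E3} {v : Fin 3 → E3} (hcv : Convex ℝ K)
    (hdis : ∀ n : Fin 3 → ℤ, n ≠ 0 → Disjoint (interior K)
      ((fun x => x + (2 : ℝ) • ∑ i, (n i : ℝ) • v i) '' interior K))
    {ρ : ℝ} (hρ : ∀ x ∈ K, ‖x‖ ≤ ρ) (s : ℝ) (A : Set E3)
    (hA : ∀ n : Fin 3 → ℤ, (fun x => x + lam v n) '' K ⊆ A) :
    num v s * volume K ≤ (volume : Measure E3) (A ∩ Metric.ball 0 (s + ρ)) := by
  have h1 : (⋃ n : Near v s, (fun x => x + lam v n.1) '' interior K) ⊆
      A ∩ Metric.ball 0 (s + ρ) := by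
    refine iUnion_subset fun n => ?_
    rintro _ ⟨x, hx, rfl⟩
    refine ⟨hA n.1 ⟨x, interior_subset hx, rfl⟩, ?_⟩
    rw [Metric.mem_ball, dist_zero_right]
    have h2 := hρ x (interior_subset hx)
    have h3 := n.2
    exact lt_of_le_of_lt (norm_add_le _ _) (by linarith)
  have h2 : (volume : Measure E3) K = volume (interior K) :=
    (measure_congr (interior_ae_eq_of_null_frontier (hcv.addHaar_frontier volume))).symm
  refine le_trans (le_of_eq ?_) (measure_mono h1)
  rw [measure_iUnion]
  · unfold num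
    rw [← ENNReal.tsum_mul_right]
    refine tsum_congr fun n => ?_
    rw [meas_shift, one_mul, h2]
  · intro m n hmn
    have hne : m.1 - n.1 ≠ 0 := fun h => hmn (Subtype.ext (sub_eq_zero.1 h))
    have h3 := hdis (m.1 - n.1) hne
    rw [Function.onFun, Set.disjoint_left]
    rintro _ ⟨x, hx, rfl⟩ ⟨y, hy, hxy⟩
    refine Set.disjoint_left.1 h3 hy ⟨x, hx, ?_⟩
    have h4 : lam v (m.1 - n.1) = lam v m.1 - lam v n.1 := lam_sub v m.1 n.1
    unfold lam at h4
    show x + (2 : ℝ) • ∑ i, ((m.1 - n.1) i : ℝ) • v i = y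
    rw [h4]
    have h5 : y + lam v n.1 = x + lam v m.1 := hxy
    unfold lam at h5
    rw [← add_sub_assoc, ← h5, add_sub_cancel_right]
  · intro n
    have h3 : IsOpen ((fun x => x + lam v n.1) '' interior K) :=
      (Homeomorph.addRight (lam v n.1)).isOpenMap _ isOpen_interior
    exact h3.measurableSet

/-- the real function which bounds the density from below -/
theorem lower_tendsto (q D : ℝ) :
    Tendsto (fun R : ℝ => ENNReal.ofReal (q * ((R - D) / R) ^ 3)) atTop (𝓝 (ENNReal.ofReal q)) := by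
  have h1 : Tendsto (fun R : ℝ => D / R) atTop (𝓝 0) := tendsto_const_nhds.div_atTop tendsto_id
  have h2 : Tendsto (fun R : ℝ => q * (1 - D / R) ^ 3) atTop (𝓝 (q * (1 - 0) ^ 3)) :=
    ((tendsto_const_nhds.sub h1).pow 3).const_mul q
  rw [sub_zero, one_pow, mul_one] at h2
  refine (ENNReal.continuous_ofReal.tendsto q).comp (h2.congr' ?_)
  filter_upwards [eventually_gt_atTop 0] with R hR
  rw [sub_div, div_self hR.ne']

theorem lpd : LpdStmt := by
  intro K v hK hcv hint hdt hdis
  obtain ⟨b, hb, hF⟩ := exists_basis v hdt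
  obtain ⟨e⟩ : Nonempty (ℕ ≃ (Fin 3 → ℤ)) := nonempty_equiv_of_countable
  refine ⟨fun i => IsometryEquiv.addRight (lam v (e i)), ?_, ?_⟩
  · intro i j hij
    have hint' : ∀ i, interior ((IsometryEquiv.addRight (lam v (e i))) '' K) =
        (fun x => x + lam v (e i)) '' interior K := by
      intro i
      exact ((Homeomorph.addRight (lam v (e i))).image_interior K).symm
    rw [hint', hint']
    have hne : e i - e j ≠ 0 := fun h => hij (e.injective (sub_eq_zero.1 h))
    have h3 := hdis (e i - e j) hne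
    rw [Set.disjoint_left]
    rintro _ ⟨x, hx, rfl⟩ ⟨y, hy, hxy⟩
    refine Set.disjoint_left.1 h3 hy ⟨x, hx, ?_⟩
    have h4 : lam v (e i - e j) = lam v (e i) - lam v (e j) := lam_sub v _ _
    unfold lam at h4
    show x + (2 : ℝ) • ∑ k, ((e i - e j) k : ℝ) • v k = y
    rw [h4]
    have h5 : y + lam v (e j) = x + lam v (e i) := hxy
    unfold lam at h5
    rw [← add_sub_assoc, ← h5, add_sub_cancel_right]
  · obtain ⟨d, hd⟩ := (ZSpan.fundamentalDomain_isBounded b).exists_norm_le
    obtain ⟨ρ, hρ⟩ := hK.isBounded.exists_norm_le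
    obtain ⟨D, hD⟩ : ∃ D : ℝ, D = max (d + ρ) 0 := ⟨_, rfl⟩
    have hD0 : 0 ≤ D := by rw [hD]; exact le_max_right _ _
    have hD1 : d + ρ ≤ D := by rw [hD]; exact le_max_left _ _
    rw [← (lower_tendsto (V K / (8 * dt v)) D).limsup_eq]
    refine limsup_le_limsup ?_
    filter_upwards [eventually_gt_atTop D] with R hR
    have hR0 : 0 < R := lt_of_le_of_lt hD0 hR
    have hBall : ∀ r : ℝ, 0 ≤ r → (volume : Measure E3) (Metric.ball 0 r) =
        ENNReal.ofReal (r ^ 3) * volume (Metric.ball (0 : E3) 1) := by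
      intro r hr
      have h := Measure.addHaar_ball (volume : Measure E3) 0 hr
      rwa [finrank_euclideanSpace, Fintype.card_fin] at h
    have hβ0 : (volume : Measure E3) (Metric.ball 0 R) ≠ 0 :=
      (Metric.measure_ball_pos volume _ hR0).ne'
    have hβt : (volume : Measure E3) (Metric.ball 0 R) ≠ ⊤ := measure_ball_lt_top.ne
    have hVK : (volume : Measure E3) K = ENNReal.ofReal (V K) :=
      (ofReal_measureReal hK.measure_lt_top.ne).symm
    have h1 := cover hb hd (R - D)
    have h2 := pack hcv hdis hρ (R - D + d)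
      (⋃ i : ℕ, (IsometryEquiv.addRight (lam v (e i))) '' K) (by
        intro n
        refine subset_iUnion_of_subset (e.symm n) ?_
        rw [Equiv.apply_symm_apply]
        exact subset_rfl)
    have h3 : (volume : Measure E3) ((⋃ i : ℕ, (IsometryEquiv.addRight (lam v (e i))) '' K) ∩
        Metric.ball 0 (R - D + d + ρ)) ≤
        (volume : Measure E3) ((⋃ i : ℕ, (IsometryEquiv.addRight (lam v (e i))) '' K) ∩
        Metric.ball 0 R) :=
      measure_mono (inter_subset_inter_right _ (Metric.ball_subset_ball (by linarith)))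
    have h4 := h2.trans h3
    rw [hF] at h1
    rw [hVK] at h4
    rw [hBall _ (by linarith)] at h1
    rw [ENNReal.le_div_iff_mul_le (Or.inl hβ0) (Or.inl hβt), hBall R hR0.le]
    have h8 : 0 < 8 * dt v := by positivity
    have hV0 : 0 ≤ V K := measureReal_nonneg
    have hRD : 0 ≤ R - D := by linarith
    have h5 : ENNReal.ofReal (V K / (8 * dt v) * ((R - D) / R) ^ 3) *
        (ENNReal.ofReal (R ^ 3) * volume (Metric.ball (0 : E3) 1)) =
        ENNReal.ofReal ((R - D) ^ 3) * volume (Metric.ball (0 : E3) 1) *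
          ENNReal.ofReal (V K) / ENNReal.ofReal (8 * dt v) := by
      have e1 : V K / (8 * dt v) * ((R - D) / R) ^ 3 * R ^ 3 =
          (R - D) ^ 3 * V K / (8 * dt v) := by
        field_simp
      rw [← mul_assoc, ← ENNReal.ofReal_mul (by positivity), e1,
        ENNReal.ofReal_div_of_pos h8, ENNReal.ofReal_mul (by positivity)]
      simp only [div_eq_mul_inv]
      ring
    rw [h5]
    refine ENNReal.div_le_of_le_mul' ?_
    calc ENNReal.ofReal ((R - D) ^ 3) * volume (Metric.ball (0 : E3) 1) * ENNReal.ofReal (V K)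
        ≤ num v (R - D + d) * ENNReal.ofReal (8 * dt v) * ENNReal.ofReal (V K) :=
          mul_le_mul_left h1 _
      _ = ENNReal.ofReal (8 * dt v) * (num v (R - D + d) * ENNReal.ofReal (V K)) := by ring
      _ ≤ _ := mul_le_mul_right h4 _

end Pool.Agent.UL3.H88
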